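import Pool.Agent.Helper42.RZ.St.S3
import Pool.Agent.Helper42.RZ.St.S6b

/-! # RZ-S8: elementary properties of the minimal energy -/

set_option autoImplicit false

open MeasureTheory Set Metric Filter Topology
open scoped ENNReal
open Pool.Agent.Helper42.RZ

namespace Pool.Agent.Helper50.RZ

theorem exists_conf (N : ℕ) : ∃ x : Fin N → E3, Conf x := by
  have hmem : ∀ i : Fin N, (((i : ℕ) : ℝ) / (N + 1), (0 : ℝ)) ∈ Q0 := by
    intro i
    have h1 : (0 : ℝ) ≤ ((i : ℕ) : ℝ) / (N + 1) := by positivity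
    have h2 : ((i : ℕ) : ℝ) / (N + 1) ≤ 1 := by
      rw [div_le_one (by positivity)]
      have : ((i : ℕ) : ℝ) < N := by exact_mod_cast i.2
      linarith
    have h3 := Real.pi_gt_three
    exact ⟨⟨by simp only; linarith, by simp only; linarith⟩, by simp only; norm_num, by simp only; norm_num⟩
  refine ⟨fun i => pt (((i : ℕ) : ℝ) / (N + 1), 0), fun i j hij => ?_, fun i => norm_pt (by simp)⟩
  simp only at hij
  have h := congrArg co hij
  rw [co_pt (hmem i), co_pt (hmem j), Prod.mk.injEq] at h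
  have h1 := h.1
  have h2 : (0 : ℝ) < N + 1 := by positivity
  rw [div_left_inj' h2.ne'] at h1
  exact Fin.ext (by exact_mod_cast h1)

theorem K_nonneg {s r : ℝ} (hr : 0 ≤ r) : 0 ≤ K s r := Real.rpow_nonneg hr _

theorem PS_nonneg {s : ℝ} {N : ℕ} (x : Fin N → E3) : 0 ≤ PS x (K s) :=
  Finset.sum_nonneg fun _ _ => K_nonneg (norm_nonneg _)

theorem minE_nonneg {s : ℝ} (N : ℕ) : 0 ≤ minE s N := by
  refine Real.sInf_nonneg ?_
  rintro _ ⟨x, -, rfl⟩
  exact PS_nonneg x

theorem minE_le_PS {s : ℝ} {N : ℕ} {x : Fin N → E3} (hx : Conf x) : minE s N ≤ PS x (K s) := by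
  refine csInf_le ⟨0, ?_⟩ ⟨x, hx, rfl⟩
  rintro _ ⟨y, -, rfl⟩
  exact PS_nonneg y

theorem exists_near {s : ℝ} (N : ℕ) {ε : ℝ} (hε : 0 < ε) :
    ∃ x : Fin N → E3, Conf x ∧ PS x (K s) < minE s N + ε := by
  obtain ⟨x0, hx0⟩ := exists_conf N
  obtain ⟨_, ⟨x, hx, rfl⟩, h⟩ := exists_lt_of_csInf_lt
    (s := {e | ∃ x : Fin N → E3, Conf x ∧ PS x (K s) = e}) ⟨_, x0, hx0, rfl⟩
    (show minE s N < minE s N + ε by linarith)
  exact ⟨x, hx, h⟩

theorem PS_eq {N : ℕ} (x : Fin N → E3) (k : ℝ → ℝ) :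
    PS x k = ∑ i, ∑ j, if i = j then 0 else k ‖x i - x j‖ := by
  rw [PS, ← Finset.sum_product' Finset.univ Finset.univ
    (fun i j : Fin N => if i = j then 0 else k ‖x i - x j‖)]
  have ho : (Finset.univ : Finset (Fin N)).offDiag =
      (Finset.univ ×ˢ Finset.univ).filter (fun p : Fin N × Fin N => p.1 ≠ p.2) := by
    ext p
    simp [Finset.mem_offDiag]
  rw [ho, Finset.sum_filter]
  refine Finset.sum_congr rfl fun p _ => ?_
  by_cases h : p.1 = p.2
  · simp [h]
  · simp [h]

/-- deleting a point -/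
theorem sum_del {N : ℕ} (x : Fin (N + 1) → E3) (k : ℝ → ℝ) :
    ∑ i : Fin (N + 1), PS (fun j => x (i.succAbove j)) k = ((N : ℝ) - 1) * PS x k := by
  have h1 : ∀ i : Fin (N + 1), PS (fun j => x (i.succAbove j)) k =
      ∑ a, ∑ b, if a = b ∨ a = i ∨ b = i then 0 else k ‖x a - x b‖ := by
    intro i
    rw [PS_eq, Fin.sum_univ_succAbove _ i]
    have h2 : ∑ b, (if i = b ∨ i = i ∨ b = i then 0 else k ‖x i - x b‖) = 0 :=
      Finset.sum_eq_zero fun b _ => by simp
    rw [h2, zero_add]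
    refine Finset.sum_congr rfl fun a _ => ?_
    rw [Fin.sum_univ_succAbove _ i]
    simp only [or_true, if_true, zero_add]
    refine Finset.sum_congr rfl fun b _ => ?_
    have h3 : i.succAbove a ≠ i := Fin.succAbove_ne i a
    have h4 : i.succAbove b ≠ i := Fin.succAbove_ne i b
    simp only [h3, h4, or_false, Fin.succAbove_right_inj]
  simp only [h1]
  rw [Finset.sum_comm, PS_eq, Finset.mul_sum]
  refine Finset.sum_congr rfl fun a _ => ?_
  rw [Finset.sum_comm, Finset.mul_sum]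
  refine Finset.sum_congr rfl fun b _ => ?_
  by_cases hab : a = b
  · simp [hab]
  · have h5 : ∑ i : Fin (N + 1), (if a = b ∨ a = i ∨ b = i then 0 else k ‖x a - x b‖) =
        ∑ i : Fin (N + 1), (k ‖x a - x b‖ - (if i = a then k ‖x a - x b‖ else 0) -
          (if i = b then k ‖x a - x b‖ else 0)) := by
      refine Finset.sum_congr rfl fun i _ => ?_
      by_cases h6 : i = a
      · subst h6
        simp [hab]
      · by_cases h7 : i = b
        · subst h7
          simp [h6, Ne.symm h6]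
        · have h6' : ¬ a = i := fun h => h6 h.symm
          have h7' : ¬ b = i := fun h => h7 h.symm
          simp [hab, h6, h7, h6', h7']
    rw [h5, if_neg hab, Finset.sum_sub_distrib, Finset.sum_sub_distrib]
    simp only [Finset.sum_const, Finset.card_univ, Fintype.card_fin, nsmul_eq_mul,
      Finset.sum_ite_eq', Finset.mem_univ, if_true]
    push_cast
    ring

theorem step {s : ℝ} {N : ℕ} : ((N : ℝ) + 1) * minE s N ≤ ((N : ℝ) - 1) * minE s (N + 1) ∨ N = 0 := by
  rcases Nat.eq_zero_or_pos N with h0 | h0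
  · exact Or.inr h0
  left
  have hN : (0 : ℝ) ≤ (N : ℝ) - 1 := by
    have : (1 : ℝ) ≤ N := by exact_mod_cast h0
    linarith
  have key : ∀ ε : ℝ, 0 < ε → ((N : ℝ) + 1) * minE s N ≤ ((N : ℝ) - 1) * (minE s (N + 1) + ε) := by
    intro ε hε
    obtain ⟨x, hx, h⟩ := exists_near (s := s) (N + 1) hε
    have h1 : ∀ i : Fin (N + 1), minE s N ≤ PS (fun j => x (i.succAbove j)) (K s) := fun i =>
      minE_le_PS ⟨fun a b hab => Fin.succAbove_right_injective (hx.1 hab), fun j => hx.2 _⟩
    have h2 : ∑ _i : Fin (N + 1), minE s N ≤ ∑ i : Fin (N + 1), PS (fun j => x (i.succAbove j)) (K s) :=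
      Finset.sum_le_sum fun i _ => h1 i
    rw [sum_del] at h2
    simp only [Finset.sum_const, Finset.card_univ, Fintype.card_fin, nsmul_eq_mul] at h2
    push_cast at h2
    exact h2.trans (mul_le_mul_of_nonneg_left h.le hN)
  have hlim : Tendsto (fun ε : ℝ => ((N : ℝ) - 1) * (minE s (N + 1) + ε)) (𝓝[>] 0)
      (𝓝 (((N : ℝ) - 1) * (minE s (N + 1) + 0))) := by
    refine Tendsto.mono_left ?_ nhdsWithin_le_nhds
    exact (continuous_const.mul (continuous_const.add continuous_id)).tendsto 0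
  rw [add_zero] at hlim
  exact ge_of_tendsto hlim (by
    filter_upwards [self_mem_nhdsWithin] with ε hε
    exact key ε hε)

/-- `E(N) / (N (N-1))` is nondecreasing -/
theorem minE_mono {s : ℝ} {N N' : ℕ} (hN : 2 ≤ N) (h : N ≤ N') :
    minE s N / ((N : ℝ) * (N - 1)) ≤ minE s N' / ((N' : ℝ) * (N' - 1)) := by
  induction N', h using Nat.le_induction with
  | base => exact le_rfl
  | succ n hn ih =>
    refine ih.trans ?_
    have h1 : (2 : ℝ) ≤ n := by exact_mod_cast hN.trans hn
    rcases step (s := s) (N := n) with h2 | h2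
    · have h3 : (0 : ℝ) < (n : ℝ) * (n - 1) := by nlinarith
      have h4 : (0 : ℝ) < ((n + 1 : ℕ) : ℝ) * ((n + 1 : ℕ) - 1) := by
        push_cast; nlinarith
      rw [div_le_div_iff₀ h3 h4]
      push_cast
      have h5 : (0 : ℝ) ≤ n := by linarith
      nlinarith [mul_le_mul_of_nonneg_left h2 h5]
    · rw [h2] at h1; norm_num at h1

theorem PS_cons {N : ℕ} (y : E3) (x : Fin N → E3) (k : ℝ → ℝ) :
    PS (Fin.cons y x : Fin (N + 1) → E3) k = PS x k + 2 * ∑ i, k ‖x i - y‖ := by
  rw [PS_eq, PS_eq, Fin.sum_univ_succ]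
  simp only [Fin.sum_univ_succ, Fin.cons_zero, Fin.cons_succ, if_true, zero_add]
  have h1 : ∀ i : Fin N, (if (0 : Fin (N + 1)) = i.succ then 0 else k ‖y - x i‖) = k ‖x i - y‖ := by
    intro i
    rw [if_neg (Fin.succ_ne_zero i).symm, norm_sub_rev]
  have h2 : ∀ i : Fin N, (if i.succ = (0 : Fin (N + 1)) then 0 else k ‖x i - y‖) = k ‖x i - y‖ := by
    intro i
    rw [if_neg (Fin.succ_ne_zero i)]
  simp only [h1, h2, Fin.succ_inj, Finset.sum_add_distrib]
  ring

theorem measurable_K (s : ℝ) : Measurable (K s) := by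
  unfold K
  exact Measurable.pow_const measurable_id _

theorem integrable_K {s : ℝ} (h2 : s < 2) {x : E3} (hx : ‖x‖ = 1) :
    Integrable (fun y => K s ‖x - y‖) sig := by
  rw [integrable_dist hx (measurable_K s)]
  have h3 : IntervalIntegrable (fun r : ℝ => r ^ (1 - s)) volume 0 2 :=
    intervalIntegral.intervalIntegrable_rpow' (by linarith)
  have h4 := ((intervalIntegrable_iff_integrableOn_Ioc_of_le (by norm_num)).1 h3).mono_set
    Ioo_subset_Ioc_self
  refine (h4.const_mul (1 / 2)).congr ?_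
  refine (ae_restrict_iff' measurableSet_Ioo).2 (Eventually.of_forall fun r hr => ?_)
  simp only [K]
  rw [show (1 : ℝ) - s = -s + 1 by ring, Real.rpow_add_one hr.1.ne']
  ring

theorem exists_greedy {s : ℝ} (h0 : 0 < s) (h2 : s < 2) (N : ℕ) :
    ∃ x : Fin N → E3, Conf x ∧ PS x (K s) ≤ Cc s * ((N : ℝ) * (N - 1)) := by
  induction N with
  | zero =>
    obtain ⟨x, hx⟩ := exists_conf 0
    exact ⟨x, hx, by simp [PS]⟩
  | succ n ih =>
    obtain ⟨x, hx, hE⟩ := ih
    have hint : ∀ i, Integrable (fun y => K s ‖x i - y‖) sig := fun i => integrable_K h2 (hx.2 i)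
    have hI : ∫ y, ∑ i, K s ‖x i - y‖ ∂sig = n * Cc s := by
      rw [integral_finsetSum _ fun i _ => hint i]
      simp only [integral_dist (hx.2 _) (measurable_K s), bg_K h0 h2]
      simp
    have hnull : sig ({y | ¬ ‖y‖ = 1} ∪ ⋃ i, {x i}) = 0 := by
      refine measure_union_null ae_norm_sig ?_
      exact measure_iUnion_null fun i => sig_singleton (x i)
    obtain ⟨y, hy, hle⟩ := exists_notMem_null_le_integral
      (integrable_finsetSum _ fun i _ => hint i) hnull
    rw [hI] at hle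
    simp only [mem_union, mem_ofPred_eq, mem_iUnion, mem_singleton_iff, not_or, not_not,
      not_exists] at hy
    refine ⟨Fin.cons y x, ⟨?_, ?_⟩, ?_⟩
    · rw [Fin.cons_injective_iff]
      refine ⟨?_, hx.1⟩
      rintro ⟨i, hi⟩
      exact hy.2 i hi.symm
    · intro i
      refine Fin.cases ?_ (fun j => ?_) i
      · exact hy.1
      · exact hx.2 j
    · rw [PS_cons]
      push_cast
      nlinarith

theorem minE_le {s : ℝ} (h0 : 0 < s) (h2 : s < 2) (N : ℕ) :
    minE s N ≤ Cc s * ((N : ℝ) * (N - 1)) := by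
  obtain ⟨x, hx, h⟩ := exists_greedy h0 h2 N
  exact (minE_le_PS hx).trans h

end Pool.Agent.Helper50.RZ
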